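import Pool.Agent.Helper83.Rel.Defs
import Pool.Agent.Helper43.CB.Start

/-!
# T-REL, R2: dense normalised points of a cone
-/

set_option autoImplicit false

namespace Pool.Agent.Helper49.Rel

open NumberField Polynomial Pool.Agent.Helper4.CB Pool.Agent.Helper69.CB Pool.Agent.Helper83.Rel

/-- **R2.** dense normalised points of a cone, over the scaling lemma R1 -/
theorem exists_nrm_of {K : Type} [Field K] [NumberField K] {R : Type} [CommRing R] [IsDomain R]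
    [Algebra K R] {N : ℕ}
    (hR1 : ∃ J0 : ℕ, ∀ J, J0 ≤ J →
      ∀ t : Fin N → K, t ≠ 0 → ∃ l : K, l ≠ 0 ∧ ∀ p : Pl K, Bad J p →
        (∀ i, vl p (l * t i) ≤ 1) ∧ ∃ i, vl p (l * t i) = 1)
    (τ : Fin N → R) (hgen : Algebra.adjoin K (Set.range τ) = ⊤)
    (hcone : ∀ φ : R →ₐ[K] K, ∃ ψ : R →ₐ[K] K[X], ∀ l, ψ (τ l) = X * C (φ (τ l)))
    (hdense : ∀ f : R, f ≠ 0 → ∃ φ : R →ₐ[K] K, φ f ≠ 0) (hτ : ∃ l, τ l ≠ 0) :
    ∃ J0 : ℕ, ∀ J, J0 ≤ J → ∀ f : R, f ≠ 0 → ∃ φ : R →ₐ[K] K, Nrm J τ φ ∧ φ f ≠ 0 := by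
  classical
  obtain ⟨J1, hJ1⟩ := hR1
  obtain ⟨J2, hJ2⟩ := Pool.Agent.Helper43.CB.start K {(2 : K)} 0
  refine ⟨max J1 J2, fun J hJ f hf => ?_⟩
  obtain ⟨l0, hl0⟩ := hτ
  obtain ⟨φ, hφ⟩ := hdense (f * τ l0) (mul_ne_zero hf hl0)
  rw [map_mul] at hφ
  have hf0 : φ f ≠ 0 := left_ne_zero_of_mul hφ
  have ht0 : (fun l => φ (τ l)) ≠ 0 := by
    intro h
    exact right_ne_zero_of_mul hφ (congrFun h l0)
  obtain ⟨lam, hlam, hp⟩ := hJ1 J ((le_max_left _ _).trans hJ) (fun l => φ (τ l)) ht0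
  obtain ⟨ψ, hψ⟩ := hcone φ
  -- `ψ` at `1` is `φ`
  have hψ1 : (Polynomial.aeval (1 : K)).comp ψ = φ := by
    refine AlgHom.ext_of_adjoin_eq_top hgen ?_
    rintro _ ⟨l, rfl⟩
    simp [hψ l]
  have hψf : ψ f ≠ 0 := by
    intro h
    apply hf0
    rw [← hψ1, AlgHom.comp_apply, h, map_zero]
  -- a good multiple of `lam`
  obtain ⟨k, hk⟩ : ∃ k : ℕ, (ψ f).eval (lam * 2 ^ k) ≠ 0 := by
    by_contra hcon
    push Not at hcon
    apply hψf
    refine Polynomial.eq_zero_of_infinite_isRoot _ ?_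
    have hinj : Function.Injective (fun k : ℕ => lam * (2 : K) ^ k) := by
      intro a b hab
      have h1 : (2 : K) ^ a = 2 ^ b := mul_left_cancel₀ hlam hab
      have h2 : ((2 ^ a : ℕ) : K) = ((2 ^ b : ℕ) : K) := by push_cast; exact h1
      exact Nat.pow_right_injective le_rfl (Nat.cast_injective h2)
    refine (Set.infinite_range_of_injective hinj).mono ?_
    rintro _ ⟨k, rfl⟩
    exact hcon k
  refine ⟨(Polynomial.aeval (lam * 2 ^ k)).comp ψ, ?_, ?_⟩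
  · intro p hpB
    have h2 : vl p (2 : K) = 1 :=
      (hJ2 J ((le_max_right _ _).trans hJ) p hpB).2 2 (Finset.mem_singleton_self _) two_ne_zero
    have hval : ∀ l, vl p (((Polynomial.aeval (lam * 2 ^ k)).comp ψ) (τ l)) =
        vl p (lam * φ (τ l)) := by
      intro l
      rw [AlgHom.comp_apply, hψ l, map_mul, Polynomial.aeval_X, Polynomial.aeval_C,
        Algebra.algebraMap_self_apply, mul_assoc, mul_comm ((2 : K) ^ k), ← mul_assoc, map_mul,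
        map_pow, h2, one_pow, mul_one]
    obtain ⟨h3, i, h4⟩ := hp p hpB
    exact ⟨fun l => (hval l).trans_le (h3 l), i, (hval i).trans h4⟩
  · rw [AlgHom.comp_apply, Polynomial.coe_aeval_eq_eval]
    exact hk

end Pool.Agent.Helper49.Rel
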